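import Pool.Agent.TH852.RH.Tensor

/-!
# MP_e508a7_gt: `|K ∩ (-K)| ≥ (16/27)^n |K|` for convex bodies with centroid at the origin

The known bound is `2^(-n)`. The conjectured extremal value, for simplices, is `(2/e + o(1))^n`,
where `2/e = 0.7357...` and `16/27 = 0.5925...`.

Second part: every exponential lower bound for the largest symmetric part with a free centre passes
to the symmetric part centred at the centroid, with the same base.

The proof: let `C` be the cone over `K`, in dimension `N = n + 1`, and `W z` the volume of the order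
interval `[0, z]` of `C`. The `N`-th root of `W` is concave, so there is a linear functional `f` such
that `[0, 2 e]` is the largest interval among those with `f z ≤ 2`, `e` being the centroid of `K` in
`C` and `f e = 1`. The section of `C` by `f = 1` is at least as large as `K`, since `e` is the
centroid of `K`. Compare its largest symmetric part with intervals. The factor `2 (n + 1)` which is
lost is removed by applying the inequality to the powers of `K`.
-/

set_option autoImplicit false

open MeasureTheory Set Pointwise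

namespace Pool.Agent.Results.MP_e508a7_gt.CentroidSymmetricPart

open Pool.Agent.H404R2.TH (CB V)
open Pool.Agent.H748R2.KB Pool.Agent.TH852.RH

/-- the coordinates -/
noncomputable abbrev co' (n : ℕ) : EuclideanSpace ℝ (Fin n) ≃L[ℝ] (Fin n → ℝ) :=
  EuclideanSpace.equiv (Fin n) ℝ

lemma mp (n : ℕ) : MeasurePreserving (co' n) volume volume := PiLp.volume_preserving_ofLp (Fin n)

lemma vol_image {n : ℕ} {S : Set (EuclideanSpace ℝ (Fin n))} (hS : IsCompact S) :
    volume (co' n '' S) = volume S := by
  have h1 := (mp n).measure_preimage (hS.image (co' n).continuous).measurableSet.nullMeasurableSet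
  rw [preimage_image_eq _ (co' n).injective] at h1
  exact h1.symm

lemma cb_image {n : ℕ} {K : Set (EuclideanSpace ℝ (Fin n))} (hc : Convex ℝ K) (hK : IsCompact K)
    (hi : (interior K).Nonempty) : CB (co' n '' K) := by
  refine ⟨hK.image (co' n).continuous, hc.linear_image (co' n).toLinearEquiv.toLinearMap, ?_⟩
  have : interior (co' n '' K) = co' n '' interior K :=
    ((co' n).toHomeomorph.image_interior K).symm
  rw [this]
  exact hi.image _

lemma centroid_image {n : ℕ} {K : Set (EuclideanSpace ℝ (Fin n))} (hK : IsCompact K)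
    (h : ∫ x in K, x = 0) : ∫ y in co' n '' K, y = 0 := by
  have h1 := (mp n).setIntegral_image_emb (co' n).toHomeomorph.measurableEmbedding
    (fun y : Fin n → ℝ => y) K
  rw [h1]
  have hint : IntegrableOn (fun x : EuclideanSpace ℝ (Fin n) => x) K :=
    continuous_id.continuousOn.integrableOn_compact hK
  have h2 := (co' n : EuclideanSpace ℝ (Fin n) →L[ℝ] (Fin n → ℝ)).integral_comp_comm hint
  rw [h, map_zero] at h2
  exact h2

lemma sym_image {n : ℕ} (K : Set (EuclideanSpace ℝ (Fin n))) :
    co' n '' {x | x ∈ K ∧ -x ∈ K} = sym (co' n '' K) := by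
  ext y
  constructor
  · rintro ⟨x, ⟨h1, h2⟩, rfl⟩
    exact ⟨⟨x, h1, rfl⟩, ⟨-x, h2, map_neg _ _⟩⟩
  · rintro ⟨⟨x, h1, rfl⟩, ⟨x', h2, h3⟩⟩
    refine ⟨x, ⟨h1, ?_⟩, rfl⟩
    have : x' = -x := (co' n).injective (by rw [h3, map_neg])
    rwa [← this]

/-- the transfer principle in a Euclidean space -/
theorem transfer_euclid (c : ℝ) (hc : 0 ≤ c)
    (h : ∀ N : ℕ, 0 < N → ∀ L : Set (Fin N → ℝ), CB L → ∃ z, c ^ N * V L ≤ V (sy L z))
    (n : ℕ) (K : Set (EuclideanSpace ℝ (Fin n))) (hKc : Convex ℝ K) (hK : IsCompact K)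
    (hi : (interior K).Nonempty) (hcen : ∫ x in K, x = 0) :
    ENNReal.ofReal (c ^ n) * volume K ≤
      volume {x : EuclideanSpace ℝ (Fin n) | x ∈ K ∧ -x ∈ K} := by
  have hS : IsCompact {x : EuclideanSpace ℝ (Fin n) | x ∈ K ∧ -x ∈ K} := by
    have : {x : EuclideanSpace ℝ (Fin n) | x ∈ K ∧ -x ∈ K} = K ∩ -K := by ext x; rfl
    rw [this]
    exact hK.inter_right hK.neg.isClosed
  rcases Nat.eq_zero_or_pos n with rfl | hn
  · rw [pow_zero, ENNReal.ofReal_one, one_mul]
    refine measure_mono fun x hx => ⟨hx, ?_⟩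
    rwa [Subsingleton.elim (-x) x]
  · have h1 := centroid_of_max c hc h hn (cb_image hKc hK hi) (centroid_image hK hcen)
    rw [← vol_image hK, ← vol_image hS, sym_image]
    have hf1 : volume (co' n '' K) ≠ ⊤ := (hK.image (co' n).continuous).measure_ne_top
    have hf2 : volume (sym (co' n '' K)) ≠ ⊤ :=
      (sym_compact (hK.image (co' n).continuous)).measure_ne_top
    rw [← ENNReal.ofReal_toReal hf1, ← ENNReal.ofReal_toReal hf2,
      ← ENNReal.ofReal_mul (by positivity)]
    exact ENNReal.ofReal_le_ofReal h1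

/-- **Main theorem.** Let `K` be a convex body in `ℝ^n` with centroid at the origin.
1. The volume of `K ∩ (-K)` is at least `(16/27)^n |K|`.
2. More generally, let `c ≥ 0` be such that every convex body `L` in every `ℝ^N`, `N ≥ 1`, has a
   symmetric part `L ∩ (z - L)` of volume at least `c^N |L|`. Then `|K ∩ (-K)| ≥ c^n |K|`. -/
theorem result :
    (∀ (n : ℕ) (K : Set (EuclideanSpace ℝ (Fin n))),
      Convex ℝ K → IsCompact K → (interior K).Nonempty → (∫ x in K, x) = 0 →
      ENNReal.ofReal ((16 / 27) ^ n) * volume K ≤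
        volume {x : EuclideanSpace ℝ (Fin n) | x ∈ K ∧ -x ∈ K}) ∧
    (∀ c : ℝ, 0 ≤ c →
      (∀ (N : ℕ) (L : Set (EuclideanSpace ℝ (Fin N))), 1 ≤ N →
        Convex ℝ L → IsCompact L → (interior L).Nonempty →
        ∃ z : EuclideanSpace ℝ (Fin N), ENNReal.ofReal (c ^ N) * volume L ≤
          volume {x : EuclideanSpace ℝ (Fin N) | x ∈ L ∧ z - x ∈ L}) →
      ∀ (n : ℕ) (K : Set (EuclideanSpace ℝ (Fin n))),
        Convex ℝ K → IsCompact K → (interior K).Nonempty → (∫ x in K, x) = 0 →
        ENNReal.ofReal (c ^ n) * volume K ≤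
          volume {x : EuclideanSpace ℝ (Fin n) | x ∈ K ∧ -x ∈ K}) := by
  refine ⟨fun n K hc hK hi hcen => transfer_euclid (16 / 27) (by norm_num) kbn n K hc hK hi hcen, ?_⟩
  intro c hc h n K hKc hK hi hcen
  refine transfer_euclid c hc ?_ n K hKc hK hi hcen
  intro N hN L hL
  have hL' : IsCompact ((co' N).symm '' L) := hL.isCompact.image (co' N).symm.continuous
  have hLL : co' N '' ((co' N).symm '' L) = L := by
    ext y
    constructor
    · rintro ⟨_, ⟨a, ha, rfl⟩, rfl⟩
      rw [(co' N).apply_symm_apply]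
      exact ha
    · intro hy
      exact ⟨_, ⟨y, hy, rfl⟩, (co' N).apply_symm_apply y⟩
  have hi' : (interior ((co' N).symm '' L)).Nonempty := by
    have : interior ((co' N).symm '' L) = (co' N).symm '' interior L :=
      ((co' N).symm.toHomeomorph.image_interior L).symm
    rw [this]
    exact hL.interior_nonempty.image _
  obtain ⟨z, hz⟩ := h N ((co' N).symm '' L) hN
    (hL.convex.linear_image (co' N).symm.toLinearEquiv.toLinearMap) hL' hi'
  refine ⟨co' N z, ?_⟩
  have hcl : IsCompact {x : EuclideanSpace ℝ (Fin N) | x ∈ (co' N).symm '' L ∧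
      z - x ∈ (co' N).symm '' L} := by
    refine hL'.of_isClosed_subset ?_ (fun x hx => hx.1)
    exact hL'.isClosed.inter (hL'.isClosed.preimage (by fun_prop : Continuous fun x => z - x))
  have h1 : co' N '' {x : EuclideanSpace ℝ (Fin N) | x ∈ (co' N).symm '' L ∧
      z - x ∈ (co' N).symm '' L} = sy L (co' N z) := by
    ext y
    constructor
    · rintro ⟨x, ⟨⟨a, ha, hax⟩, ⟨b, hb, hbx⟩⟩, rfl⟩
      have e1 : co' N x = a := by rw [← hax, (co' N).apply_symm_apply]
      have e2 : co' N z - co' N x = b := by rw [← map_sub, ← hbx, (co' N).apply_symm_apply]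
      refine ⟨?_, ?_⟩
      · show co' N x ∈ L
        rw [e1]; exact ha
      · show co' N z - co' N x ∈ L
        rw [e2]; exact hb
    · rintro ⟨h2, h3⟩
      refine ⟨(co' N).symm y, ⟨⟨y, h2, rfl⟩, ⟨co' N z - y, h3, ?_⟩⟩, (co' N).apply_symm_apply y⟩
      rw [map_sub, (co' N).symm_apply_apply]
  rw [← vol_image hcl, h1, ← vol_image hL', hLL] at hz
  have hsc : IsCompact (sy L (co' N z)) := by
    rw [← h1]
    exact hcl.image (co' N).continuous
  have h2 := ENNReal.toReal_mono hsc.measure_ne_top hz
  rw [ENNReal.toReal_mul, ENNReal.toReal_ofReal (by positivity)] at h2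
  exact h2

end Pool.Agent.Results.MP_e508a7_gt.CentroidSymmetricPart
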